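import Pool.Agent.T6.H35.BO.Main
import Pool.Agent.T6.H35.CQ.Scales

/-!
# Common offsets: final form
-/

set_option autoImplicit false

namespace Pool.Agent.T6.H35.BO

open Finset Polynomial
open Pool.Agent.T6.H35.EQ

/-- `v` is a product of at most `T` primes, all larger than `z` -/
def AP (T : ℕ) (z : ℝ) (v : ℕ) : Prop :=
  0 < v ∧ v.primeFactorsList.length ≤ T ∧ ∀ p : ℕ, p.Prime → p ∣ v → z < p

open Classical in
/-- the offsets `h ≤ X` with the fractional part of `P (h)` smaller than `c` for which all the numbers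
`n_i ^ 2 + slope (n_i) h`, `n_i ^ 2 - slope (n_i) h` are almost primes -/
noncomputable def Offsets {K : ℕ} (n : Fin K → ℕ) (P : ℝ[X]) (c : ℝ) (T : ℕ) (z : ℝ) (X : ℕ) : Finset ℕ :=
  (Icc 1 X).filter (fun h : ℕ => Int.fract (P.eval (h : ℝ)) < c ∧
    ∀ i, AP T z (n i ^ 2 + slope K (n i) * h) ∧ AP T z (n i ^ 2 - slope K (n i) * h))

/-- the lower bound for the number of offsets -/
def ManyOffsets (K a t C : ℕ) (δ : ℝ) (X : ℕ) (P : ℝ[X]) : Prop :=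
  ∀ n : Fin K → ℕ, (∀ i, slope K (n i) * X ≤ (n i).totient ∧ n i ≤ X ^ a) →
    ∀ c : ℝ, (X : ℝ) ^ (-δ) ≤ c → c ≤ 1 →
      c * X / Real.log X ^ C ≤
        ((Offsets n P c ((2 * a + 1) * t) ((X : ℝ) ^ (1 / (t : ℝ))) X).card : ℝ)

lemma list_low (z : ℝ) (hz : 0 ≤ z) : ∀ l : List ℕ, (∀ p ∈ l, z < (p : ℝ)) →
    z ^ l.length ≤ ((l.prod : ℕ) : ℝ) := by
  intro l
  induction l with
  | nil => intro _; simp
  | cons p l ih =>
    intro h
    have h1 := ih (fun q hq => h q (List.mem_cons_of_mem _ hq))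
    have h2 := h p List.mem_cons_self
    rw [List.length_cons, List.prod_cons, pow_succ]
    rw [Nat.cast_mul, mul_comm (z ^ l.length) z]
    exact mul_le_mul h2.le h1 (by positivity) (Nat.cast_nonneg _)

lemma ap_of {v L : ℕ} {z : ℝ} (hz : 1 < z) (hv : 0 < v) (hv2 : (v : ℝ) ≤ z ^ L)
    (h : ∀ p : ℕ, p.Prime → p ∣ v → z < p) : AP L z v := by
  refine ⟨hv, ?_, h⟩
  have h1 := list_low z (by linarith) v.primeFactorsList (fun p hp =>
    h p (Nat.prime_of_mem_primeFactorsList hp) (Nat.dvd_of_mem_primeFactorsList hp))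
  rw [Nat.prod_primeFactorsList hv.ne'] at h1
  exact (pow_le_pow_iff_right₀ hz).1 (h1.trans hv2)

theorem final (K k : ℕ) (hk : 1 ≤ k) (η : ℝ) (hη : 0 < η) (hη1 : η ≤ 1) : ∃ t C : ℕ, 1 ≤ t ∧
    ∃ δ : ℝ, 0 < δ ∧ ∀ a : ℕ, ∃ X₀ : ℕ, ∀ X : ℕ, X₀ ≤ X → ∀ P : ℝ[X], P.natDegree = k →
    Irr X η P.leadingCoeff → ManyOffsets K a t C δ X P := by
  classical
  obtain ⟨t, C, ht, δ, hδ, X₀, hX⟩ := main K k hk η hη hη1
  refine ⟨t, C, ht, δ, hδ, fun a => ⟨max X₀ 2, fun X hX0 P hP hI n hn c hc hc1 => ?_⟩⟩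
  have hmain := hX X ((le_max_left _ _).trans hX0) P hP hI n c hc hc1
  have hX2 : 2 ≤ X := (le_max_right _ _).trans hX0
  have hX2r : (2 : ℝ) ≤ X := by exact_mod_cast hX2
  have hX0r : (0 : ℝ) < X := by linarith
  have ht0 : (0 : ℝ) < t := by exact_mod_cast ht
  refine hmain.trans ?_
  rw [Nat.cast_le]
  apply card_le_card
  intro h hh
  rw [mem_filter, mem_Icc] at hh
  unfold Offsets
  rw [mem_filter, mem_Icc]
  refine ⟨hh.1, hh.2.1, fun i => ?_⟩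
  obtain ⟨h1, h2⟩ := hn i
  have h3 : slope K (n i) * h ≤ n i :=
    (Nat.mul_le_mul_left _ hh.1.2).trans (h1.trans (Nat.totient_le _))
  have h4 : 2 ≤ n i := by
    have : 1 * X ≤ slope K (n i) * X := Nat.mul_le_mul_right _ (slope_pos K (n i))
    have := Nat.totient_le (n i)
    omega
  have h5 : n i * 2 ≤ n i ^ 2 := by rw [pow_two]; exact Nat.mul_le_mul_left _ h4
  set z : ℝ := (X : ℝ) ^ (1 / (t : ℝ)) with hz
  have hz1 : 1 < z := Real.one_lt_rpow (by linarith) (by positivity)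
  have hzT : z ^ ((2 * a + 1) * t) = (X : ℝ) ^ (2 * a + 1) := by
    rw [hz, ← Real.rpow_natCast, ← Real.rpow_mul hX0r.le, ← Real.rpow_natCast]
    congr 1
    push_cast
    field_simp
  have hbound : ((n i ^ 2 + slope K (n i) * h : ℕ) : ℝ) ≤ z ^ ((2 * a + 1) * t) := by
    rw [hzT]
    have h6 : n i ^ 2 + slope K (n i) * h ≤ X ^ (2 * a + 1) := by
      calc n i ^ 2 + slope K (n i) * h ≤ 2 * n i ^ 2 := by omega
        _ ≤ X * (X ^ a) ^ 2 := Nat.mul_le_mul hX2 (Nat.pow_le_pow_left h2 2)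
        _ = _ := by rw [← pow_mul, ← pow_succ']; ring_nf
    exact_mod_cast h6
  have hdiv : ∀ p : ℕ, p.Prime → (p ∣ n i ^ 2 + slope K (n i) * h ∨ p ∣ n i ^ 2 - slope K (n i) * h) →
      z < p := by
    intro p hp hd
    refine hh.2.2 p hp ?_
    rcases hd with hd | hd
    · refine ⟨i, true, ?_⟩
      have := Int.natCast_dvd_natCast.2 hd
      push_cast at this
      simpa [fm] using this
    · refine ⟨i, false, ?_⟩
      have := Int.natCast_dvd_natCast.2 hd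
      rw [Nat.cast_sub (by omega)] at this
      push_cast at this
      simpa [fm] using this
  constructor
  · exact ap_of hz1 (by omega) hbound (fun p hp hd => hdiv p hp (Or.inl hd))
  · refine ap_of hz1 (by omega) (le_trans ?_ hbound) (fun p hp hd => hdiv p hp (Or.inr hd))
    exact_mod_cast (by omega : n i ^ 2 - slope K (n i) * h ≤ n i ^ 2 + slope K (n i) * h)

/-- numbers of finite type -/
lemma type_irr {τ c₀ : ℝ} (hτ : 1 ≤ τ) (hc₀ : 0 < c₀) : ∃ X₀ : ℕ, ∀ V : ℕ, X₀ ≤ V → ∀ α : ℝ,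
    (∀ d : ℕ, 1 ≤ d → ∀ b : ℤ, c₀ / (d : ℝ) ^ τ ≤ |d * α - b|) → Irr V (1 / (4 * τ)) α := by
  have hτ0 : 0 < τ := by linarith
  obtain ⟨X₁, hX₁⟩ := exists_nat_gt ((1 / c₀) ^ (4 : ℝ))
  refine ⟨max X₁ 1, fun V hV α hfin => ?_⟩
  have hV1 : (1 : ℝ) ≤ V := by exact_mod_cast (le_max_right _ _).trans hV
  have hVX : (X₁ : ℝ) ≤ V := by exact_mod_cast (le_max_left _ _).trans hV
  have hV0 : (0 : ℝ) < V := by linarith
  have hVc : 1 / c₀ < (V : ℝ) ^ (1 / 4 : ℝ) := by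
    calc 1 / c₀ = ((1 / c₀) ^ (4 : ℝ)) ^ (1 / 4 : ℝ) := by
          rw [← Real.rpow_mul (by positivity)]; norm_num
      _ < _ := Real.rpow_lt_rpow (by positivity) (hX₁.trans_le hVX) (by norm_num)
  intro m hm1 hm a
  refine lt_of_lt_of_le ?_ (hfin m hm1 a)
  have hm0 : (0 : ℝ) < m := by exact_mod_cast hm1
  have h3 : (m : ℝ) ^ τ ≤ (V : ℝ) ^ (1 / 4 : ℝ) := by
    calc (m : ℝ) ^ τ ≤ ((V : ℝ) ^ (1 / (4 * τ))) ^ τ := Real.rpow_le_rpow hm0.le hm hτ0.le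
      _ = _ := by
          rw [← Real.rpow_mul hV0.le]
          have : 1 / (4 * τ) * τ = 1 / 4 := by field_simp
          rw [this]
  have h4 : c₀ / (V : ℝ) ^ (1 / 4 : ℝ) ≤ c₀ / (m : ℝ) ^ τ := by
    have : 0 < (m : ℝ) ^ τ := by positivity
    gcongr
  refine lt_of_lt_of_le ?_ h4
  rw [lt_div_iff₀ (by positivity), ← Real.rpow_add hV0]
  have h5 : (V : ℝ) ^ (-(1 / 2) + 1 / 4 : ℝ) = ((V : ℝ) ^ (1 / 4 : ℝ))⁻¹ := by
    rw [← Real.rpow_neg hV0.le]; norm_num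
  rw [h5]
  have h6 : 1 < c₀ * (V : ℝ) ^ (1 / 4 : ℝ) := by
    rw [div_lt_iff₀ hc₀] at hVc
    linarith
  rw [inv_lt_iff_one_lt_mul₀ (by positivity)]
  linarith

theorem off_type (K k : ℕ) (hk : 1 ≤ k) (τ : ℝ) (hτ : 1 ≤ τ) : ∃ t C : ℕ, 1 ≤ t ∧ ∃ δ : ℝ, 0 < δ ∧
    ∀ (a : ℕ) (c₀ : ℝ), 0 < c₀ → ∃ X₀ : ℕ, ∀ X : ℕ, X₀ ≤ X → ∀ P : ℝ[X], P.natDegree = k →
      (∀ d : ℕ, 1 ≤ d → ∀ b : ℤ, c₀ / (d : ℝ) ^ τ ≤ |d * P.leadingCoeff - b|) →
      ManyOffsets K a t C δ X P := by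
  obtain ⟨t, C, ht, δ, hδ, h⟩ := final K k hk (1 / (4 * τ)) (by positivity) (by
    rw [div_le_one (by positivity)]; linarith)
  refine ⟨t, C, ht, δ, hδ, fun a c₀ hc₀ => ?_⟩
  obtain ⟨X₁, h1⟩ := h a
  obtain ⟨X₂, h2⟩ := type_irr hτ hc₀
  exact ⟨max X₁ X₂, fun X hX P hP hfin => h1 X ((le_max_left _ _).trans hX) P hP
    (h2 X ((le_max_right _ _).trans hX) _ hfin)⟩

theorem off_irr (K k : ℕ) (hk : 1 ≤ k) : ∃ t C : ℕ, 1 ≤ t ∧ ∃ δ : ℝ, 0 < δ ∧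
    ∀ (a : ℕ) (α : ℝ), Irrational α → ∀ B : ℕ, ∃ X : ℕ, B ≤ X ∧ ∀ P : ℝ[X], P.natDegree = k →
      P.leadingCoeff = α → ManyOffsets K a t C δ X P := by
  obtain ⟨t, C, ht, δ, hδ, h⟩ := final K k hk (1 / 4) (by norm_num) (by norm_num)
  refine ⟨t, C, ht, δ, hδ, fun a α hα B => ?_⟩
  obtain ⟨X₁, h1⟩ := h a
  obtain ⟨V, hV, _, hI⟩ := Pool.Agent.T6.H35.CQ.irr_scale hα (max B X₁)
  exact ⟨V, (le_max_left _ _).trans hV, fun P hP hPα => h1 V ((le_max_right _ _).trans hV) P hP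
    (by rw [hPα]; exact hI)⟩

end Pool.Agent.T6.H35.BO
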