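import Pool.Agent.T6.H35.EQ.Poly
import Pool.Agent.T6.H35.EQ.Scale

/-!
# Equidistribution of `P (n)` in progressions
-/

set_option autoImplicit false

namespace Pool.Agent.T6.H35.BO

open Finset Polynomial
open Pool.Agent.H469R2.NK (e norm_e e_add e_zero conj_e)
open Pool.Agent.T6.H35.EQ

theorem lin_arc (k : ℕ) (hk : 1 ≤ k) (η : ℝ) (hη : 0 < η) (hη1 : η ≤ 1) : ∃ τ : ℝ, 0 < τ ∧ τ ≤ 1 / 8 ∧
    ∃ ρ : ℝ, 0 < ρ ∧ ρ ≤ τ / 4 ∧ ∃ (E : ℝ) (V₀ : ℕ), 1 ≤ E ∧ ∀ V : ℕ, V₀ ≤ V → 1 ≤ V → ∀ P : ℝ[X],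
    P.natDegree = k → Irr V η P.leadingCoeff → ∀ (m : ℕ) (b : ℝ), 1 ≤ m → (m : ℝ) ≤ (V : ℝ) ^ ρ →
    ∀ W : ℕ, W ≤ V → ∀ c : ℝ, 0 ≤ c → c ≤ 1 →
    |(((range W).filter (fun w : ℕ => Int.fract (P.eval ((m : ℝ) * w + b)) < c)).card : ℝ)
      - c * W| ≤ E * (V : ℝ) ^ (1 - τ) := by
  obtain ⟨D, hD⟩ : ∃ D, k = D + 1 := ⟨k - 1, by omega⟩
  obtain ⟨σ, hσ0, hσ1, Cw, hCw, hw⟩ := weyl D (η / 2) (by positivity) (by linarith)
  set τ : ℝ := min (σ / 4) (η / 16) with hτ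
  have hτ0 : 0 < τ := lt_min (by positivity) (by positivity)
  have hτ1 : τ ≤ σ / 4 := min_le_left _ _
  have hτ2 : τ ≤ η / 16 := min_le_right _ _
  set ρ : ℝ := min (τ / 4) (η / (8 * k)) with hρ
  have hk0 : (0 : ℝ) < k := by exact_mod_cast hk
  have hρ0 : 0 < ρ := lt_min (by positivity) (by positivity)
  have hρ1 : ρ ≤ τ / 4 := min_le_left _ _
  have hρ2 : ρ ≤ η / (8 * k) := min_le_right _ _
  obtain ⟨V₀, hV₀⟩ := exists_nat_gt ((2 : ℝ) ^ (4 / η))
  refine ⟨τ, hτ0, by linarith, ρ, hρ0, hρ1, 4 * Cw + 4, V₀, by linarith, ?_⟩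
  intro V hV hV1' P hP hI m b hm hmV W hW c h0 h1
  have hV1 : (1 : ℝ) ≤ V := by exact_mod_cast hV1'
  have hV0 : (0 : ℝ) < V := by linarith
  have hpw : ∀ t : ℝ, 0 < (V : ℝ) ^ t := fun t => Real.rpow_pos_of_pos hV0 t
  have hm0 : (0 : ℝ) < m := by exact_mod_cast hm
  set R : ℝ[X] := P.comp (C (m : ℝ) * X + C b) with hR
  have hRdeg : R.natDegree = D + 1 := by rw [hR, natDegree_comp, hP, natDegree_linear hm0.ne', ← hD]; ring
  have hRlead : R.leadingCoeff = P.leadingCoeff * (m : ℝ) ^ k := by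
    rw [hR, leadingCoeff_comp (by rw [natDegree_linear hm0.ne']; norm_num), leadingCoeff_linear hm0.ne', hP]
  have hev : ∀ w : ℕ, R.eval (w : ℝ) = P.eval ((m : ℝ) * w + b) := fun w => by
    rw [hR, eval_comp]; simp
  have hbig : (2 : ℝ) ≤ (V : ℝ) ^ (η / 4) := by
    have h2 : (2 : ℝ) ^ (4 / η) ≤ (V : ℝ) := hV₀.le.trans (by exact_mod_cast hV)
    calc (2 : ℝ) = ((2 : ℝ) ^ (4 / η)) ^ (η / 4) := by
          rw [← Real.rpow_mul (by positivity)]
          have : 4 / η * (η / 4) = 1 := by field_simp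
          rw [this, Real.rpow_one]
      _ ≤ _ := Real.rpow_le_rpow (by positivity) h2 (by positivity)
  have hm6 : (m : ℝ) ^ k ≤ (V : ℝ) ^ (η / 8) := by
    calc (m : ℝ) ^ k ≤ ((V : ℝ) ^ ρ) ^ k := by gcongr
      _ = (V : ℝ) ^ (ρ * k) := by rw [← Real.rpow_natCast, ← Real.rpow_mul hV0.le]
      _ ≤ _ := by
          apply Real.rpow_le_rpow_of_exponent_le hV1
          rw [le_div_iff₀ (by positivity)] at hρ2
          linarith
  have hmain := disc (range W) (fun w : ℕ => R.eval (w : ℝ)) hV1 (by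
      rw [card_range]; exact_mod_cast hW) hτ0 (E := Cw * (V : ℝ) ^ (1 - σ)) (fun h hh1 hh2 => by
    have hh0 : h ≠ 0 := by omega
    set r : ℤ := (h : ℤ) * (m : ℤ) ^ k with hr
    have hr0 : r ≠ 0 := by
      rw [hr]
      have h3 : (m : ℤ) ≠ 0 := by exact_mod_cast (by omega : m ≠ 0)
      have h4 : (h : ℤ) ≠ 0 := by exact_mod_cast hh0
      exact mul_ne_zero h4 (pow_ne_zero _ h3)
    have hrr : (r : ℝ) = h * (m : ℝ) ^ k := by
      rw [hr]; push_cast; ring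
    have h4 := ph_poly D (C (h : ℝ) * R) ((natDegree_C_mul_le _ _).trans hRdeg.le)
    rw [coeff_C_mul] at h4
    have h5 : R.coeff (D + 1) = P.leadingCoeff * (m : ℝ) ^ k := by
      rw [← hRlead, leadingCoeff, hRdeg]
    rw [h5] at h4
    have h6 : (h : ℝ) * (P.leadingCoeff * (m : ℝ) ^ k) = (r : ℝ) * P.leadingCoeff := by
      rw [hrr]
      ring
    rw [h6] at h4
    have hIr : Irr V (η / 2) (r * P.leadingCoeff) := by
      apply hI.mul hr0
      rw [hrr, abs_of_nonneg (by positivity)]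
      have h7 : (h : ℝ) ≤ 2 * (V : ℝ) ^ (2 * τ) := hh2
      calc (V : ℝ) ^ (η / 2) * (h * (m : ℝ) ^ k) ≤
          (V : ℝ) ^ (η / 2) * ((2 * (V : ℝ) ^ (2 * τ)) * (V : ℝ) ^ (η / 8)) := by
            gcongr
        _ = (V : ℝ) ^ (η / 2) * (V : ℝ) ^ (2 * τ) * (V : ℝ) ^ (η / 8) * 2 := by ring
        _ ≤ (V : ℝ) ^ (η / 2) * (V : ℝ) ^ (2 * τ) * (V : ℝ) ^ (η / 8) * (V : ℝ) ^ (η / 4) := by
            have := hpw (η / 2)
            have := hpw (2 * τ)
            have := hpw (η / 8)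
            gcongr
        _ = (V : ℝ) ^ (η / 2 + 2 * τ + η / 8 + η / 4) := by
            rw [← Real.rpow_add hV0, ← Real.rpow_add hV0, ← Real.rpow_add hV0]
        _ ≤ _ := Real.rpow_le_rpow_of_exponent_le hV1 (by linarith)
    have h8 := hw V W _ _ hV1' hW hIr h4
    simpa only [eval_mul, eval_C] using h8) h0 h1
  rw [card_range] at hmain
  simp only [hev] at hmain
  refine hmain.trans ?_
  have h9 : 4 * (V : ℝ) ^ (2 * τ) * (Cw * (V : ℝ) ^ (1 - σ)) ≤ 4 * Cw * (V : ℝ) ^ (1 - τ) := by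
    calc 4 * (V : ℝ) ^ (2 * τ) * (Cw * (V : ℝ) ^ (1 - σ)) = 4 * Cw * ((V : ℝ) ^ (2 * τ) * (V : ℝ) ^ (1 - σ)) := by ring
      _ = 4 * Cw * (V : ℝ) ^ (2 * τ + (1 - σ)) := by rw [← Real.rpow_add hV0]
      _ ≤ _ := by
        apply mul_le_mul_of_nonneg_left _ (by positivity)
        exact Real.rpow_le_rpow_of_exponent_le hV1 (by linarith)
  linarith

/-- equidistribution in the residue classes -/
theorem cls_arc (k : ℕ) (hk : 1 ≤ k) (η : ℝ) (hη : 0 < η) (hη1 : η ≤ 1) : ∃ τ : ℝ, 0 < τ ∧ τ ≤ 1 / 8 ∧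
    ∃ ρ : ℝ, 0 < ρ ∧ ρ ≤ τ / 4 ∧ ∃ (E : ℝ) (V₀ : ℕ), 1 ≤ E ∧ ∀ V : ℕ, V₀ ≤ V → 1 ≤ V → ∀ P : ℝ[X],
    P.natDegree = k → Irr V η P.leadingCoeff → ∀ m : ℕ, 1 ≤ m → (m : ℝ) ≤ (V : ℝ) ^ ρ →
    ∀ c : ℝ, 0 ≤ c → c ≤ 1 → ∀ r : ℕ,
    |((((Icc 1 V).filter (fun n : ℕ => Int.fract (P.eval (n : ℝ)) < c)).filter
      (fun n => n ≡ r [MOD m])).card : ℝ) - c * V / m| ≤ E * (V : ℝ) ^ (1 - τ) := by
  obtain ⟨τ, hτ0, hτ1, ρ, hρ0, hρ1, E, V₀, hE, h⟩ := lin_arc k hk η hη hη1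
  refine ⟨τ, hτ0, hτ1, ρ, hρ0, hρ1, E + 1, V₀, by linarith, ?_⟩
  intro V hV hV1' P hP hI m hm hmV c h0 h1 r
  have hV1 : (1 : ℝ) ≤ V := by exact_mod_cast hV1'
  have hm0 : (0 : ℝ) < m := by exact_mod_cast hm
  -- representative in `[1, m]`
  obtain ⟨b, hb1, hb2, hbr⟩ : ∃ b : ℕ, 1 ≤ b ∧ b ≤ m ∧ b ≡ r [MOD m] := by
    rcases Nat.eq_zero_or_pos (r % m) with h3 | h3
    · refine ⟨m, hm, le_rfl, ?_⟩
      unfold Nat.ModEq
      rw [Nat.mod_self, h3]
    · exact ⟨r % m, h3, (Nat.mod_lt _ hm).le, Nat.mod_modEq _ _⟩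
  set W : ℕ := (V + m - b) / m with hW
  have hWV : W ≤ V := by
    rw [hW]
    calc (V + m - b) / m ≤ (V + m - 1) / m := Nat.div_le_div_right (by omega)
      _ ≤ V := by
        apply Nat.div_le_of_le_mul
        have : V + m ≤ m * V + 1 := by nlinarith
        omega
  have hcard : (((Icc 1 V).filter (fun n : ℕ => Int.fract (P.eval (n : ℝ)) < c)).filter
      (fun n => n ≡ r [MOD m])).card =
      ((range W).filter (fun w : ℕ => Int.fract (P.eval ((m : ℝ) * w + (b : ℝ))) < c)).card := by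
    symm
    apply card_bij (fun w _ => m * w + b)
    · intro w hw
      rw [mem_filter, mem_range] at hw
      obtain ⟨hw1, hw2⟩ := hw
      rw [mem_filter, mem_filter, mem_Icc]
      have h3 : m * (w + 1) ≤ V + m - b := by
        have : w + 1 ≤ (V + m - b) / m := hw1
        rw [mul_comm]
        exact (Nat.le_div_iff_mul_le hm).1 this
      have e : m * (w + 1) = m * w + m := by ring
      refine ⟨⟨⟨by omega, by omega⟩, ?_⟩, ?_⟩
      · push_cast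
        exact hw2
      · have h4 : m * w + b ≡ b [MOD m] := by
          unfold Nat.ModEq
          rw [Nat.mul_add_mod]
        exact h4.trans hbr
    · intro w _ w' _ hww
      have : m * w = m * w' := by omega
      exact Nat.eq_of_mul_eq_mul_left hm this
    · intro n hn
      rw [mem_filter, mem_filter, mem_Icc] at hn
      obtain ⟨⟨⟨hn1, hn2⟩, hn3⟩, hn4⟩ := hn
      have h5 : n ≡ b [MOD m] := hn4.trans hbr.symm
      have hbn : b ≤ n := by
        by_contra hcon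
        rcases Nat.lt_or_ge b m with h6 | h6
        · unfold Nat.ModEq at h5
          rw [Nat.mod_eq_of_lt (by omega), Nat.mod_eq_of_lt h6] at h5
          omega
        · have hbm : b = m := by omega
          unfold Nat.ModEq at h5
          rw [hbm, Nat.mod_self, Nat.mod_eq_of_lt (by omega)] at h5
          omega
      obtain ⟨w, hw⟩ := (Nat.modEq_iff_dvd' hbn).1 h5.symm
      refine ⟨w, ?_, by omega⟩
      rw [mem_filter, mem_range]
      have hnw : n = m * w + b := by omega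
      refine ⟨?_, ?_⟩
      · rw [hW]
        have : w + 1 ≤ (V + m - b) / m := by
          rw [Nat.le_div_iff_mul_le hm]
          have e : (w + 1) * m = m * w + m := by ring
          omega
        omega
      · have h7 : (n : ℝ) = (m : ℝ) * w + b := by exact_mod_cast hnw
        rw [← h7]; exact hn3
  rw [hcard]
  have h3 := h V hV hV1' P hP hI m b hm hmV W hWV c h0 h1
  have h4 : |(W : ℝ) - V / m| ≤ 1 := by
    have e1 : m * W ≤ V + m - b := Nat.mul_div_le _ _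
    have e2 : V + m - b < m * (W + 1) := by
      rw [hW]
      exact Nat.lt_mul_div_succ _ hm
    have e3 : (m : ℝ) * W ≤ V + m := by exact_mod_cast (by omega : m * W ≤ V + m)
    have e4 : (V : ℝ) ≤ m * (W + 1) := by exact_mod_cast (by omega : V ≤ m * (W + 1))
    rw [abs_le]
    constructor
    · have : (V : ℝ) / m ≤ W + 1 := by rw [div_le_iff₀ hm0]; linarith
      linarith
    · have : (W : ℝ) - 1 ≤ V / m := by rw [le_div_iff₀ hm0]; nlinarith
      linarith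
  have h5 : |c * (W : ℝ) - c * V / m| ≤ 1 := by
    have e : c * (W : ℝ) - c * V / m = c * ((W : ℝ) - V / m) := by ring
    rw [e, abs_mul, abs_of_nonneg h0]
    nlinarith [abs_nonneg ((W : ℝ) - V / m)]
  have h6 : (1 : ℝ) ≤ (V : ℝ) ^ (1 - τ) := Real.one_le_rpow hV1 (by linarith)
  calc _ = |((((range W).filter (fun w : ℕ => Int.fract (P.eval ((m : ℝ) * w + (b : ℝ))) < c)).card : ℝ) - c * W) +
        (c * W - c * V / m)| := by ring_nf
    _ ≤ _ := abs_add_le _ _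
    _ ≤ E * (V : ℝ) ^ (1 - τ) + 1 := add_le_add h3 h5
    _ ≤ _ := by linarith

end Pool.Agent.T6.H35.BO
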