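import Pool.Agent.T6.H35.BO.Lin
import Pool.Agent.T6.H35.BO.WFund

/-!
# Common offsets of several squares in short arcs
-/

set_option autoImplicit false

namespace Pool.Agent.T6.H35.BO

open Finset Polynomial
open Pool.Agent.T6.H35.EQ
open Pool.Agent.H373R2.T7 (pz Vz nuB PerB mem_pz nuB_le Vz_low)

/-- the product of the primes `≤ 2 K` which do not divide `n` -/
def slope (K n : ℕ) : ℕ := ∏ p ∈ (range (2 * K + 1)).filter (fun p => p.Prime ∧ ¬ p ∣ n), p

lemma slope_pos (K n : ℕ) : 1 ≤ slope K n := by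
  unfold slope
  apply Nat.pos_of_ne_zero
  rw [prod_ne_zero_iff]
  intro p hp
  rw [mem_filter] at hp
  exact hp.2.1.ne_zero

lemma slope_dvd {K n p : ℕ} (hp : p.Prime) (h : p ∣ slope K n) : ¬ p ∣ n := by
  unfold slope at h
  obtain ⟨q, hq, hpq⟩ := (hp.prime.dvd_finset_prod_iff _).1 h
  rw [mem_filter] at hq
  have : p = q := (Nat.prime_dvd_prime_iff_eq hp hq.2.1).1 hpq
  rw [this]
  exact hq.2.2

lemma dvd_slope {K n p : ℕ} (hp : p.Prime) (h : p ≤ 2 * K) (hn : ¬ p ∣ n) : p ∣ slope K n := by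
  unfold slope
  apply dvd_prod_of_mem (fun p => p)
  rw [mem_filter, mem_range]
  exact ⟨by omega, hp, hn⟩

/-- the two linear forms -/
def fm (K n : ℕ) (σ : Bool) (h : ℕ) : ℤ :=
  if σ then (n : ℤ) ^ 2 + slope K n * h else (n : ℤ) ^ 2 - slope K n * h

/-- the condition modulo `p` -/
def QQ {K : ℕ} (n : Fin K → ℕ) (p h : ℕ) : Prop :=
  ∃ i : Fin K, ∃ σ : Bool, (p : ℤ) ∣ fm K (n i) σ h

lemma fm_mod (K n : ℕ) (σ : Bool) (p h h' : ℕ) (hh : (p : ℤ) ∣ (h : ℤ) - h') (hd : (p : ℤ) ∣ fm K n σ h) :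
    (p : ℤ) ∣ fm K n σ h' := by
  cases σ
  · have e : fm K n false h' = fm K n false h + slope K n * ((h : ℤ) - h') := by
      unfold fm; simp; ring
    rw [e]
    exact dvd_add hd (Dvd.dvd.mul_left hh _)
  · have e : fm K n true h' = fm K n true h - slope K n * ((h : ℤ) - h') := by
      unfold fm; simp; ring
    rw [e]
    exact dvd_sub hd (Dvd.dvd.mul_left hh _)

lemma fm_diff (K n : ℕ) (σ : Bool) (p h h' : ℕ) (h1 : (p : ℤ) ∣ fm K n σ h) (h2 : (p : ℤ) ∣ fm K n σ h') :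
    (p : ℤ) ∣ slope K n * ((h : ℤ) - h') := by
  cases σ
  · have e : slope K n * ((h : ℤ) - h') = fm K n false h' - fm K n false h := by
      unfold fm; simp; ring
    rw [e]
    exact dvd_sub h2 h1
  · have e : slope K n * ((h : ℤ) - h') = fm K n true h - fm K n true h' := by
      unfold fm; simp; ring
    rw [e]
    exact dvd_sub h1 h2

lemma fm_slope {K n : ℕ} {σ : Bool} {p h : ℕ} (hp : p.Prime) (hs : p ∣ slope K n) :
    ¬ (p : ℤ) ∣ fm K n σ h := by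
  intro hd
  have h1 : (p : ℤ) ∣ (slope K n : ℤ) * h := Dvd.dvd.mul_right (Int.natCast_dvd_natCast.2 hs) _
  have h2 : (p : ℤ) ∣ (n : ℤ) ^ 2 := by
    cases σ
    · have e : (n : ℤ) ^ 2 = fm K n false h + slope K n * h := by unfold fm; simp
      rw [e]; exact dvd_add hd h1
    · have e : (n : ℤ) ^ 2 = fm K n true h - slope K n * h := by unfold fm; simp
      rw [e]; exact dvd_sub hd h1
  have h3 : (p : ℤ) ∣ (n : ℤ) := Int.Prime.dvd_pow' hp h2
  exact slope_dvd hp hs (Int.natCast_dvd_natCast.1 h3)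

lemma fm_uniq {K n : ℕ} {σ : Bool} {p h h' : ℕ} (hp : p.Prime) (h1 : (p : ℤ) ∣ fm K n σ h)
    (h2 : (p : ℤ) ∣ fm K n σ h') (hh : h < p) (hh' : h' < p) : h = h' := by
  by_cases hs : p ∣ slope K n
  · exact absurd h1 (fm_slope hp hs)
  · have h3 := fm_diff K n σ p h h' h1 h2
    have h4 : (p : ℤ) ∣ (h : ℤ) - h' := by
      rcases Int.Prime.dvd_mul' hp h3 with h5 | h5
      · exact absurd (Int.natCast_dvd_natCast.1 h5) hs
      · exact h5
    have h5 : |(h : ℤ) - h'| < p := by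
      rw [abs_lt]; omega
    have h6 := Int.eq_zero_of_abs_lt_dvd h4 h5
    omega

lemma QQ_per {K : ℕ} (n : Fin K → ℕ) (hK : 1 ≤ 2 * K + 1) : PerB (QQ n) (2 * K + 1) := by
  classical
  refine ⟨?_, ?_⟩
  · intro p h
    have h0 : (p : ℤ) ∣ (h : ℤ) - ((h % p : ℕ) : ℤ) := by
      refine ⟨((h / p : ℕ) : ℤ), ?_⟩
      have := Nat.div_add_mod h p
      have h2 : ((p * (h / p) + h % p : ℕ) : ℤ) = h := by rw [this]
      push_cast at h2 ⊢
      linarith
    have h0' : (p : ℤ) ∣ ((h % p : ℕ) : ℤ) - (h : ℤ) := (dvd_sub_comm).1 h0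
    constructor
    · rintro ⟨i, σ, hd⟩
      exact ⟨i, σ, fm_mod K (n i) σ p h (h % p) h0 hd⟩
    · rintro ⟨i, σ, hd⟩
      exact ⟨i, σ, fm_mod K (n i) σ p (h % p) h h0' hd⟩
  · intro p hp
    have h1 : (range p).filter (fun r => QQ n p r) ⊆
        (univ : Finset (Fin K × Bool)).biUnion (fun z => (range p).filter (fun r => (p : ℤ) ∣ fm K (n z.1) z.2 r)) := by
      intro r hr
      rw [mem_filter] at hr
      obtain ⟨hr1, i, σ, hd⟩ := hr
      rw [mem_biUnion]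
      exact ⟨(i, σ), mem_univ _, mem_filter.2 ⟨hr1, hd⟩⟩
    have h2 : nuB (QQ n) p ≤ ∑ z : Fin K × Bool, 1 := by
      unfold nuB
      refine (card_le_card (by convert h1)).trans (card_biUnion_le.trans (sum_le_sum fun z _ => ?_))
      rw [card_le_one]
      intro r hr r' hr'
      rw [mem_filter, mem_range] at hr hr'
      exact fm_uniq hp hr.2 hr'.2 hr.1 hr'.1
    rw [sum_const, card_univ, Fintype.card_prod, Fintype.card_fin, Fintype.card_bool] at h2
    simp only [smul_eq_mul, mul_one] at h2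
    omega

lemma QQ_few {K : ℕ} (n : Fin K → ℕ) {p : ℕ} (hp : p.Prime) : nuB (QQ n) p ≤ 2 * K ∧
    (p ≤ 2 * K → nuB (QQ n) p ≤ 1) := by
  classical
  constructor
  · have h1 : (range p).filter (fun r => QQ n p r) ⊆
        (univ : Finset (Fin K × Bool)).biUnion (fun z => (range p).filter (fun r => (p : ℤ) ∣ fm K (n z.1) z.2 r)) := by
      intro r hr
      rw [mem_filter] at hr
      obtain ⟨hr1, i, σ, hd⟩ := hr
      rw [mem_biUnion]
      exact ⟨(i, σ), mem_univ _, mem_filter.2 ⟨hr1, hd⟩⟩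
    have h2 : nuB (QQ n) p ≤ ∑ z : Fin K × Bool, 1 := by
      unfold nuB
      refine (card_le_card (by convert h1)).trans (card_biUnion_le.trans (sum_le_sum fun z _ => ?_))
      rw [card_le_one]
      intro r hr r' hr'
      rw [mem_filter, mem_range] at hr hr'
      exact fm_uniq hp hr.2 hr'.2 hr.1 hr'.1
    rw [sum_const, card_univ, Fintype.card_prod, Fintype.card_fin, Fintype.card_bool] at h2
    simp only [smul_eq_mul, mul_one] at h2
    omega
  · intro hpK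
    unfold nuB
    rw [card_le_one]
    have h0 : ∀ r ∈ (range p).filter (fun r => QQ n p r), r = 0 := by
      intro r hr
      rw [mem_filter, mem_range] at hr
      obtain ⟨hr1, i, σ, hd⟩ := hr
      have hn : p ∣ n i := by
        by_contra hn
        exact fm_slope hp (dvd_slope hp hpK hn) hd
      have h3 : (p : ℤ) ∣ fm K (n i) σ 0 := by
        have h4 : (p : ℤ) ∣ (n i : ℤ) ^ 2 := (Int.natCast_dvd_natCast.2 hn).trans (dvd_pow_self _ two_ne_zero)
        cases σ <;> (unfold fm; simpa using h4)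
      exact fm_uniq hp hd h3 hr1 hp.pos
    intro r hr r' hr'
    rw [h0 r (by convert hr), h0 r' (by convert hr')]

/-- the local factors -/
lemma local_low {K : ℕ} (n : Fin K → ℕ) {p : ℕ} (hp : p.Prime) :
    (1 - 1 / (p : ℝ)) ^ (2 * K * (2 * K + 1) + 1) ≤ 1 - (nuB (QQ n) p : ℝ) / p := by
  obtain ⟨h1, h2⟩ := QQ_few n hp
  have hp2 : (2 : ℝ) ≤ p := by exact_mod_cast hp.two_le
  have hp0 : (0 : ℝ) < p := by linarith
  have hx0 : 0 ≤ 1 - 1 / (p : ℝ) := by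
    have : 1 / (p : ℝ) ≤ 1 := by rw [div_le_one hp0]; linarith
    linarith
  have hx1 : 1 - 1 / (p : ℝ) ≤ 1 := by
    have : 0 ≤ 1 / (p : ℝ) := by positivity
    linarith
  by_cases hpK : p ≤ 2 * K
  · have h3 : (nuB (QQ n) p : ℝ) ≤ 1 := by exact_mod_cast h2 hpK
    have h4 : (nuB (QQ n) p : ℝ) / p ≤ 1 / p := by gcongr
    have h5 : (1 - 1 / (p : ℝ)) ^ (2 * K * (2 * K + 1) + 1) ≤ (1 - 1 / (p : ℝ)) ^ 1 :=
      pow_le_pow_of_le_one hx0 hx1 (by omega)
    rw [pow_one] at h5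
    linarith
  · have h3 : (nuB (QQ n) p : ℝ) ≤ 2 * K := by exact_mod_cast h1
    have h4 : (nuB (QQ n) p : ℝ) / p ≤ 2 * K / p := by gcongr
    have hpK' : (2 * K + 1 : ℝ) ≤ p := by exact_mod_cast (by omega : 2 * K + 1 ≤ p)
    have hK0 : (0 : ℝ) ≤ K := Nat.cast_nonneg K
    set N : ℕ := 2 * K * (2 * K + 1) with hN
    have h5 : (1 - 1 / (p : ℝ)) ^ (N + 1) ≤ (1 - 1 / (p : ℝ)) ^ N := pow_le_pow_of_le_one hx0 hx1 (by omega)
    have h6 : (1 - 1 / (p : ℝ)) ^ N ≤ Real.exp (-(N / p)) := by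
      calc (1 - 1 / (p : ℝ)) ^ N ≤ (Real.exp (-(1 / p))) ^ N := by
            apply pow_le_pow_left₀ hx0
            have := Real.add_one_le_exp (-(1 / (p : ℝ)))
            linarith
        _ = _ := by rw [← Real.exp_nat_mul]; ring_nf
    have h7 : Real.exp (-(N / p)) ≤ 1 / (1 + N / p) := by
      rw [Real.exp_neg, ← one_div]
      apply one_div_le_one_div_of_le (by positivity)
      have := Real.add_one_le_exp ((N : ℝ) / p)
      linarith
    have h8 : 1 / (1 + (N : ℝ) / p) ≤ 1 - 2 * K / p := by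
      have hNr : (N : ℝ) = 2 * K * (2 * K + 1) := by rw [hN]; push_cast; ring
      have e1 : 1 / (1 + (N : ℝ) / p) = p / (p + N) := by field_simp
      have e2 : 1 - 2 * (K : ℝ) / p = (p - 2 * K) / p := by field_simp
      rw [e1, e2, div_le_div_iff₀ (by positivity) hp0]
      nlinarith [mul_nonneg hK0 (sub_nonneg.2 hpK'), mul_nonneg (mul_nonneg hK0 hK0) (sub_nonneg.2 hpK')]
    linarith

lemma prod_low {K : ℕ} (n : Fin K → ℕ) (y : ℕ) :
    (Vz y) ^ (2 * K * (2 * K + 1) + 1) ≤ ∏ p ∈ pz y, (1 - (nuB (QQ n) p : ℝ) / p) := by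
  unfold Vz
  rw [← prod_pow]
  apply prod_le_prod
  · intro p hp
    have hp2 : (1 : ℝ) ≤ p := by exact_mod_cast (mem_pz.1 hp).2.one_lt.le
    have : 1 / (p : ℝ) ≤ 1 := by rw [div_le_one (by linarith)]; exact hp2
    exact pow_nonneg (by linarith) _
  · intro p hp
    exact local_low n (mem_pz.1 hp).2

open Classical in
/-- the main count -/
theorem main (K k : ℕ) (hk : 1 ≤ k) (η : ℝ) (hη : 0 < η) (hη1 : η ≤ 1) : ∃ t C : ℕ, 1 ≤ t ∧
    ∃ δ : ℝ, 0 < δ ∧ ∃ X₀ : ℕ, ∀ X : ℕ, X₀ ≤ X → ∀ P : ℝ[X], P.natDegree = k →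
    Irr X η P.leadingCoeff → ∀ n : Fin K → ℕ, ∀ c : ℝ, (X : ℝ) ^ (-δ) ≤ c → c ≤ 1 →
      c * X / Real.log X ^ C ≤ (((Icc 1 X).filter (fun h : ℕ => Int.fract (P.eval (h : ℝ)) < c ∧
        ∀ p : ℕ, p.Prime → QQ n p h → (X : ℝ) ^ (1 / (t : ℝ)) < p)).card : ℝ) := by
  obtain ⟨Kf, y0, hKf, hf⟩ := wfund (2 * K + 1) (by omega) (1 / 2) (by norm_num)
  obtain ⟨τ, hτ0, hτ1, ρ, hρ0, hρ1, E, V₀, hE, hcls⟩ := cls_arc k hk η hη hη1
  obtain ⟨C₁, N₁, hVz⟩ := Vz_low
  set N : ℕ := 2 * K * (2 * K + 1) + 1 with hN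
  set t : ℕ := ⌈(Kf : ℝ) / ρ⌉₊ with ht
  have hKf0 : (0 : ℝ) < Kf := by exact_mod_cast hKf
  have ht0 : (Kf : ℝ) / ρ ≤ t := Nat.le_ceil _
  have htpos : (0 : ℝ) < t := lt_of_lt_of_le (by positivity) ht0
  have ht1 : 1 ≤ t := by exact_mod_cast htpos
  have htρ : (Kf : ℝ) / t ≤ ρ := by
    rw [div_le_iff₀ hρ0] at ht0
    rw [div_le_iff₀ htpos]
    linarith
  -- thresholds
  have hlog : ∃ X₁ : ℕ, ∀ X : ℕ, X₁ ≤ X → 4 * E * Real.log X ^ (C₁ * N) ≤ (X : ℝ) ^ (τ / 2) := by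
    have h1 := isLittleO_log_rpow_rpow_atTop (((C₁ * N : ℕ)) : ℝ) (show (0 : ℝ) < τ / 2 by positivity)
    have h2 := h1.def (show (0 : ℝ) < 1 / (4 * E) by positivity)
    have h3 := tendsto_natCast_atTop_atTop (R := ℝ) |>.eventually h2
    obtain ⟨X₁, hX₁⟩ := Filter.eventually_atTop.1 h3
    refine ⟨max X₁ 1, fun X hX => ?_⟩
    have h4 := hX₁ X ((le_max_left _ _).trans hX)
    have h5 : (1 : ℝ) ≤ X := by exact_mod_cast (le_max_right _ _).trans hX
    have h6 : 0 ≤ Real.log X := Real.log_nonneg h5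
    rw [Real.norm_of_nonneg (by positivity), Real.norm_of_nonneg (by positivity), Real.rpow_natCast] at h4
    have h7 : 4 * E * Real.log X ^ (C₁ * N) ≤ 4 * E * (1 / (4 * E) * (X : ℝ) ^ (τ / 2)) := by gcongr
    refine h7.trans (le_of_eq ?_)
    field_simp
  obtain ⟨X₁, hX₁⟩ := hlog
  obtain ⟨X₂, hX₂⟩ := exists_nat_gt (Real.exp 4)
  set Y₁ : ℕ := max (max y0 N₁) 3 + 1 with hY₁
  refine ⟨t, C₁ * N + 1, ht1, τ / 4, by positivity, max (max X₁ X₂) (max (Y₁ ^ t) V₀), ?_⟩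
  intro X hX P hP hI n c hc hc1
  have x1 : X₁ ≤ X := ((le_max_left _ _).trans (le_max_left _ _)).trans hX
  have x2 : X₂ ≤ X := ((le_max_right _ _).trans (le_max_left _ _)).trans hX
  have x3 : Y₁ ^ t ≤ X := ((le_max_left _ _).trans (le_max_right _ _)).trans hX
  have x4 : V₀ ≤ X := ((le_max_right _ _).trans (le_max_right _ _)).trans hX
  have hXe : Real.exp 4 < X := hX₂.trans_le (by exact_mod_cast x2)
  have hX1 : (1 : ℝ) ≤ X := by
    have : (1 : ℝ) ≤ Real.exp 4 := Real.one_le_exp (by norm_num)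
    linarith
  have hX1' : 1 ≤ X := by exact_mod_cast hX1
  have hX0 : (0 : ℝ) < X := by linarith
  have hL4 : 4 ≤ Real.log X := by
    rw [Real.le_log_iff_exp_le hX0]; exact hXe.le
  have hc0 : 0 ≤ c := le_trans (by positivity) hc
  set z : ℝ := (X : ℝ) ^ (1 / (t : ℝ)) with hz
  set y : ℕ := ⌊z⌋₊ with hy
  have hz0 : 0 < z := by positivity
  have hyz : (y : ℝ) ≤ z := Nat.floor_le hz0.le
  have hYz : (Y₁ : ℝ) ≤ z := by
    have h1 : ((Y₁ : ℝ) ^ t) ≤ X := by exact_mod_cast x3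
    calc (Y₁ : ℝ) = ((Y₁ : ℝ) ^ t) ^ (1 / (t : ℝ)) := by
          rw [← Real.rpow_natCast, ← Real.rpow_mul (by positivity)]
          have : (t : ℝ) * (1 / (t : ℝ)) = 1 := by field_simp
          rw [this, Real.rpow_one]
      _ ≤ _ := Real.rpow_le_rpow (by positivity) h1 (by positivity)
  have hyY : Y₁ ≤ y := Nat.le_floor hYz
  have hy0 : y0 ≤ y := by omega
  have hyN : N₁ ≤ y := by omega
  have hy3 : 3 ≤ y := by omega
  have hzX : z ≤ X := by
    calc z ≤ (X : ℝ) ^ (1 : ℝ) := by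
          apply Real.rpow_le_rpow_of_exponent_le hX1
          rw [div_le_one htpos]
          exact_mod_cast ht1
      _ = X := Real.rpow_one _
  have hyK : ((y : ℝ)) ^ Kf ≤ (X : ℝ) ^ ρ := by
    calc (y : ℝ) ^ Kf ≤ z ^ Kf := by gcongr
      _ = (X : ℝ) ^ ((Kf : ℝ) / t) := by
          rw [hz, ← Real.rpow_natCast, ← Real.rpow_mul hX0.le]
          congr 1
          ring
      _ ≤ _ := Real.rpow_le_rpow_of_exponent_le hX1 htρ
  set U := (Icc 1 X).filter (fun h : ℕ => Int.fract (P.eval (h : ℝ)) < c) with hU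
  have hlev := hf y hy0 (QQ n) (QQ_per n (by omega)) U (c * X) (E * (X : ℝ) ^ (1 - τ)) (by positivity)
    (by positivity) (fun q hq1 hq2 r => by
      have h1 : (q : ℝ) ≤ (X : ℝ) ^ ρ := by
        have : (q : ℝ) ≤ (y : ℝ) ^ Kf := by exact_mod_cast hq2
        exact this.trans hyK
      exact hcls X x4 hX1' P hP hI q hq1 h1 c hc0 hc1 r)
  set Pi0 : ℝ := ∏ p ∈ pz y, (1 - (nuB (QQ n) p : ℝ) / p) with hPi0
  have hlogy : 0 < Real.log y := Real.log_pos (by exact_mod_cast (by omega : 1 < y))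
  have hlogyX : Real.log y ≤ Real.log X :=
    Real.log_le_log (by exact_mod_cast (by omega : 0 < y)) (hyz.trans hzX)
  have hPi0low : 1 / Real.log X ^ (C₁ * N) ≤ Pi0 := by
    have h1 := hVz y hyN
    have h2 : (1 / Real.log y ^ C₁) ^ N ≤ Vz y ^ N := pow_le_pow_left₀ (by positivity) h1 _
    calc 1 / Real.log X ^ (C₁ * N) ≤ 1 / Real.log y ^ (C₁ * N) := by
          apply one_div_le_one_div_of_le (by positivity)
          gcongr
      _ = (1 / Real.log y ^ C₁) ^ N := by rw [div_pow, one_pow, ← pow_mul]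
      _ ≤ Vz y ^ N := h2
      _ ≤ Pi0 := prod_low n y
  have herr : (y : ℝ) ^ Kf * (E * (X : ℝ) ^ (1 - τ)) ≤ c * X / Real.log X ^ (C₁ * N) / 4 := by
    have h1 : (y : ℝ) ^ Kf * (E * (X : ℝ) ^ (1 - τ)) ≤ (X : ℝ) ^ (τ / 4) * (E * (X : ℝ) ^ (1 - τ)) := by
      apply mul_le_mul_of_nonneg_right _ (by positivity)
      exact hyK.trans (Real.rpow_le_rpow_of_exponent_le hX1 hρ1)
    refine h1.trans ?_
    have h2 := hX₁ X x1
    have hLp : 0 < Real.log X ^ (C₁ * N) := by positivity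
    rw [le_div_iff₀ (by norm_num), le_div_iff₀ hLp]
    calc (X : ℝ) ^ (τ / 4) * (E * (X : ℝ) ^ (1 - τ)) * 4 * Real.log X ^ (C₁ * N) =
        (X : ℝ) ^ (τ / 4) * (X : ℝ) ^ (1 - τ) * (4 * E * Real.log X ^ (C₁ * N)) := by ring
      _ ≤ (X : ℝ) ^ (τ / 4) * (X : ℝ) ^ (1 - τ) * (X : ℝ) ^ (τ / 2) := by gcongr
      _ = (X : ℝ) ^ (-(τ / 4)) * (X : ℝ) ^ (1 : ℝ) := by
          rw [← Real.rpow_add hX0, ← Real.rpow_add hX0, ← Real.rpow_add hX0]
          ring_nf
      _ ≤ c * X := by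
          rw [Real.rpow_one]
          gcongr
  have hlow := (abs_le.1 hlev).1
  have hsub : U.filter (fun h : ℕ => ∀ p ∈ pz y, ¬ QQ n p h) ⊆
      (Icc 1 X).filter (fun h : ℕ => Int.fract (P.eval (h : ℝ)) < c ∧
        ∀ p : ℕ, p.Prime → QQ n p h → z < p) := by
    intro h hh
    rw [mem_filter, hU, mem_filter] at hh
    rw [mem_filter]
    refine ⟨hh.1.1, hh.1.2, fun p hp hq => ?_⟩
    have h1 : ¬ p ≤ y := fun h2 => hh.2 p (mem_pz.2 ⟨h2, hp⟩) hq
    have h2 : y < p := by omega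
    exact (Nat.floor_lt hz0.le).1 h2
  have hcard : ((U.filter (fun h : ℕ => ∀ p ∈ pz y, ¬ QQ n p h)).card : ℝ) ≤
      (((Icc 1 X).filter (fun h : ℕ => Int.fract (P.eval (h : ℝ)) < c ∧
        ∀ p : ℕ, p.Prime → QQ n p h → z < p)).card : ℝ) := by exact_mod_cast card_le_card hsub
  refine le_trans ?_ hcard
  have hm1 : c * X / Real.log X ^ (C₁ * N) ≤ c * X * Pi0 := by
    calc c * X / Real.log X ^ (C₁ * N) = c * X * (1 / Real.log X ^ (C₁ * N)) := by ring
      _ ≤ _ := by gcongr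
  have hm2 : c * X / Real.log X ^ (C₁ * N + 1) ≤ c * X / Real.log X ^ (C₁ * N) / 4 := by
    rw [pow_succ, ← div_div]
    apply div_le_div_of_nonneg_left (by positivity) (by norm_num) hL4
  linarith

end Pool.Agent.T6.H35.BO
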