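import Pool.Agent.T6.H35.BO.Tup

/-!
# Twice a square in short arcs
-/

set_option autoImplicit false

namespace Pool.Agent.T6.H35.BO

open Finset Polynomial
open Pool.Agent.T6.H35.EQ
open Pool.Agent.H373R2.T7 (pz Vz nuB PerB mem_pz nuB_le Vz_low)

lemma gen_low {K : ℕ} (Q : ℕ → ℕ → Prop) (hA : ∀ p : ℕ, p.Prime → nuB Q p ≤ K ∧ nuB Q p + 1 ≤ p) (y : ℕ) :
    (Vz y) ^ (K * (K + 1)) ≤ ∏ p ∈ pz y, (1 - (nuB Q p : ℝ) / p) := by
  unfold Vz
  rw [← prod_pow]
  apply prod_le_prod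
  · intro p hp
    have hp2 : (1 : ℝ) ≤ p := by exact_mod_cast (mem_pz.1 hp).2.one_lt.le
    have : 1 / (p : ℝ) ≤ 1 := by rw [div_le_one (by linarith)]; exact hp2
    exact pow_nonneg (by linarith) _
  · intro p hp'
    have hp := (mem_pz.1 hp').2
    have hp0 : (0 : ℝ) < p := by exact_mod_cast hp.pos
    have hx0 : 0 ≤ 1 - 1 / (p : ℝ) := by
      have : 1 / (p : ℝ) ≤ 1 := by rw [div_le_one hp0]; exact_mod_cast hp.one_lt.le
      linarith
    set ν := nuB Q p with hν
    have h1 : (ν : ℝ) ≤ K := by exact_mod_cast (hA p hp).1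
    have h2 : (ν : ℝ) + 1 ≤ p := by exact_mod_cast (hA p hp).2
    have hν0 : (0 : ℝ) ≤ ν := Nat.cast_nonneg _
    have hK0 : (0 : ℝ) ≤ K := Nat.cast_nonneg K
    set N : ℕ := K * (K + 1) with hN
    have hNr : (N : ℝ) = K * (K + 1) := by rw [hN]; push_cast; ring
    have h6 : (1 - 1 / (p : ℝ)) ^ N ≤ Real.exp (-(N / p)) := by
      calc (1 - 1 / (p : ℝ)) ^ N ≤ (Real.exp (-(1 / p))) ^ N := by
            apply pow_le_pow_left₀ hx0
            have := Real.add_one_le_exp (-(1 / (p : ℝ)))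
            linarith
        _ = _ := by rw [← Real.exp_nat_mul]; ring_nf
    have h7 : Real.exp (-(N / p)) ≤ 1 / (1 + N / p) := by
      rw [Real.exp_neg, ← one_div]
      apply one_div_le_one_div_of_le (by positivity)
      have := Real.add_one_le_exp ((N : ℝ) / p)
      linarith
    have h8 : 1 / (1 + (N : ℝ) / p) ≤ 1 - ν / p := by
      have e1 : 1 / (1 + (N : ℝ) / p) = p / (p + N) := by field_simp
      have e2 : 1 - (ν : ℝ) / p = (p - ν) / p := by field_simp
      rw [e1, e2, div_le_div_iff₀ (by positivity) hp0]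
      have h9 : (ν : ℝ) * p ≤ N * (p - ν) := by
        rw [hNr]
        by_cases hpK : (p : ℝ) ≤ K + 1
        · have h10 : (ν : ℝ) * p ≤ K * (K + 1) := mul_le_mul h1 hpK hp0.le hK0
          have h11 : (K : ℝ) * (K + 1) * 1 ≤ K * (K + 1) * (p - ν) :=
            mul_le_mul_of_nonneg_left (by linarith) (by positivity)
          linarith
        · push Not at hpK
          have h10 : (ν : ℝ) * p ≤ K * p := mul_le_mul_of_nonneg_right h1 hp0.le
          have h11 : (K : ℝ) * (K + 1) * (p - K) ≤ K * (K + 1) * (p - ν) :=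
            mul_le_mul_of_nonneg_left (by linarith) (by positivity)
          have h12 : (K : ℝ) * p ≤ K * (K + 1) * (p - K) := by
            nlinarith [mul_nonneg (mul_nonneg hK0 hK0) (sub_nonneg.2 hpK.le)]
          linarith
      nlinarith
    linarith

/-- the condition modulo `p` -/
def QS (n p x : ℕ) : Prop := (p : ℤ) ∣ (n : ℤ) - 2 * (x : ℤ) ^ 2

lemma QS_bound {n : ℕ} (hn : Odd n) {p : ℕ} (hp : p.Prime) : nuB (QS n) p ≤ 2 ∧ nuB (QS n) p + 1 ≤ p := by
  classical
  rcases hp.eq_two_or_odd' with rfl | ho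
  · have h0 : (range 2).filter (fun r => QS n 2 r) = ∅ := by
      rw [filter_eq_empty_iff]
      intro r _ hr
      unfold QS at hr
      have h1 : (2 : ℤ) ∣ (n : ℤ) := by
        have h2 : (2 : ℤ) ∣ 2 * (r : ℤ) ^ 2 := dvd_mul_right _ _
        have h3 := dvd_add hr h2
        simpa using h3
      have h4 : 2 ∣ n := by exact_mod_cast h1
      have := Nat.odd_iff.1 hn
      omega
    have h1 : nuB (QS n) 2 = 0 := by
      unfold nuB
      rw [card_eq_zero]
      convert h0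
    omega
  · have hp3 : 3 ≤ p := by
      have := hp.two_le
      rcases ho with ⟨a, ha⟩
      omega
    have h2 : nuB (QS n) p ≤ 2 := by
      by_cases hne : ∃ x₀, x₀ ∈ (range p).filter (fun r => QS n p r)
      · obtain ⟨x₀, hx₀⟩ := hne
        rw [mem_filter, mem_range] at hx₀
        have hsub : (range p).filter (fun r => QS n p r) ⊆ {x₀, (p - x₀) % p} := by
          intro r hr
          rw [mem_filter, mem_range] at hr
          rw [mem_insert, mem_singleton]
          have h3 : (p : ℤ) ∣ 2 * (((r : ℤ) - x₀) * ((r : ℤ) + x₀)) := by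
            have h4 := dvd_sub hx₀.2 hr.2
            have e : ((n : ℤ) - 2 * (x₀ : ℤ) ^ 2) - ((n : ℤ) - 2 * (r : ℤ) ^ 2) =
                2 * (((r : ℤ) - x₀) * ((r : ℤ) + x₀)) := by ring
            rw [e] at h4
            exact h4
          rcases Int.Prime.dvd_mul' hp h3 with h4 | h4
          · have h5 : p ∣ 2 := by exact_mod_cast h4
            have := Nat.le_of_dvd (by norm_num) h5
            omega
          · rcases Int.Prime.dvd_mul' hp h4 with h5 | h5
            · left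
              have h6 : |(r : ℤ) - x₀| < p := by rw [abs_lt]; omega
              have h7 := Int.eq_zero_of_abs_lt_dvd h5 h6
              omega
            · right
              have h6 : p ∣ r + x₀ := by exact_mod_cast h5
              obtain ⟨w, hw⟩ := h6
              have h7 : w < 2 := by
                by_contra hcon
                have : p * 2 ≤ p * w := Nat.mul_le_mul_left _ (by omega)
                omega
              interval_cases w
              · have e1 : r = 0 := by omega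
                have e2 : x₀ = 0 := by omega
                subst e1; subst e2
                simp
              · have e1 : r = p - x₀ := by omega
                rw [Nat.mod_eq_of_lt (by omega)]
                exact e1
        unfold nuB
        exact (card_le_card (by convert hsub)).trans card_le_two
      · have h0 : (range p).filter (fun r => QS n p r) = ∅ := by
          rw [eq_empty_iff_forall_notMem]
          intro x hx
          exact hne ⟨x, hx⟩
        have h1 : nuB (QS n) p = 0 := by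
          unfold nuB
          rw [card_eq_zero]
          convert h0
        omega
    exact ⟨h2, by omega⟩

lemma QS_per {n : ℕ} (hn : Odd n) : PerB (QS n) (2 + 1) := by
  refine ⟨fun p x => ?_, fun p hp => (QS_bound hn hp).1.trans (by omega)⟩
  have h0 : (p : ℤ) ∣ (x : ℤ) - ((x % p : ℕ) : ℤ) := by
    refine ⟨((x / p : ℕ) : ℤ), ?_⟩
    have := Nat.div_add_mod x p
    have h2 : ((p * (x / p) + x % p : ℕ) : ℤ) = x := by rw [this]
    push_cast at h2 ⊢
    linarith
  have h1 : (p : ℤ) ∣ ((n : ℤ) - 2 * ((x % p : ℕ) : ℤ) ^ 2) - ((n : ℤ) - 2 * (x : ℤ) ^ 2) := by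
    have e : ((n : ℤ) - 2 * ((x % p : ℕ) : ℤ) ^ 2) - ((n : ℤ) - 2 * (x : ℤ) ^ 2) =
      ((x : ℤ) - ((x % p : ℕ) : ℤ)) * (2 * ((x : ℤ) + ((x % p : ℕ) : ℤ))) := by ring
    rw [e]
    exact Dvd.dvd.mul_right h0 _
  unfold QS
  constructor
  · intro h
    have := dvd_add h1 h
    simpa using this
  · intro h
    have := dvd_sub h h1
    simpa using this

open Classical in
/-- the `x ≤ X` with the fractional part of `F (x)` smaller than `c` and `n - 2 x ^ 2` almost prime -/
noncomputable def Reps (n : ℕ) (F : ℝ[X]) (c : ℝ) (T : ℕ) (z : ℝ) (X : ℕ) : Finset ℕ :=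
  (Icc 1 X).filter (fun x : ℕ => Int.fract (F.eval (x : ℝ)) < c ∧ AP T z (n - 2 * x ^ 2))

/-- the lower bound for all odd `n` between `2 X ^ 2` and `X ^ a` -/
def ManyReps (a t C : ℕ) (δ : ℝ) (X : ℕ) (F : ℝ[X]) : Prop :=
  ∀ n : ℕ, Odd n → 2 * X ^ 2 < n → n ≤ X ^ a → ∀ c : ℝ, (X : ℝ) ^ (-δ) ≤ c → c ≤ 1 →
    c * X / Real.log X ^ C ≤ ((Reps n F c (a * t) ((X : ℝ) ^ (1 / (t : ℝ))) X).card : ℝ)

theorem rep (k : ℕ) (hk : 1 ≤ k) (η : ℝ) (hη : 0 < η) (hη1 : η ≤ 1) : ∃ t C : ℕ, 1 ≤ t ∧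
    ∃ δ : ℝ, 0 < δ ∧ ∀ a : ℕ, ∃ X₀ : ℕ, ∀ X : ℕ, X₀ ≤ X → ∀ F : ℝ[X],
    F.natDegree = k → Irr X η F.leadingCoeff → ManyReps a t C δ X F := by
  classical
  obtain ⟨t, C', ht, δ, hδ, X₀, hX⟩ := mainQ 2 (2 * (2 + 1)) k hk η hη hη1
  refine ⟨t, C', ht, δ, hδ, fun a => ⟨max X₀ 3, fun X hX0 F hF hI n hn h2n hna c hc hc1 => ?_⟩⟩
  have hX2 : 3 ≤ X := (le_max_right _ _).trans hX0
  have hX2r : (3 : ℝ) ≤ X := by exact_mod_cast hX2
  have hX0r : (0 : ℝ) < X := by linarith
  have ht0 : (0 : ℝ) < t := by exact_mod_cast ht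
  have hmain := hX X ((le_max_left _ _).trans hX0) F hF hI (QS n) (QS_per hn)
    (gen_low (QS n) (fun p hp => QS_bound hn hp)) c hc hc1
  refine hmain.trans ?_
  rw [Nat.cast_le]
  apply card_le_card
  intro x hx
  rw [mem_filter, mem_Icc] at hx
  obtain ⟨⟨hx1, hx2⟩, hx3, hx4⟩ := hx
  unfold Reps
  rw [mem_filter, mem_Icc]
  refine ⟨⟨hx1, hx2⟩, hx3, ?_⟩
  set z : ℝ := (X : ℝ) ^ (1 / (t : ℝ)) with hz
  have hz1 : 1 < z := Real.one_lt_rpow (by linarith) (by positivity)
  have hzT : z ^ (a * t) = (X : ℝ) ^ a := by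
    rw [hz, ← Real.rpow_natCast, ← Real.rpow_mul hX0r.le, ← Real.rpow_natCast]
    congr 1
    push_cast
    field_simp
  have hxX : 2 * x ^ 2 ≤ 2 * X ^ 2 := Nat.mul_le_mul_left _ (Nat.pow_le_pow_left hx2 2)
  refine ap_of hz1 (by omega) ?_ (fun p hp hd => hx4 p hp ?_)
  · rw [hzT]
    exact_mod_cast (by omega : n - 2 * x ^ 2 ≤ X ^ a)
  · unfold QS
    have := Int.natCast_dvd_natCast.2 hd
    rw [Nat.cast_sub (by omega)] at this
    push_cast at this
    exact this

theorem rep_type (k : ℕ) (hk : 1 ≤ k) (τ : ℝ) (hτ : 1 ≤ τ) : ∃ t C : ℕ, 1 ≤ t ∧ ∃ δ : ℝ, 0 < δ ∧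
    ∀ (a : ℕ) (c₀ : ℝ), 0 < c₀ → ∃ X₀ : ℕ, ∀ X : ℕ, X₀ ≤ X → ∀ F : ℝ[X], F.natDegree = k →
      (∀ d : ℕ, 1 ≤ d → ∀ b : ℤ, c₀ / (d : ℝ) ^ τ ≤ |d * F.leadingCoeff - b|) →
      ManyReps a t C δ X F := by
  obtain ⟨t, C, ht, δ, hδ, hh⟩ := rep k hk (1 / (4 * τ)) (by positivity) (by
    rw [div_le_one (by positivity)]; linarith)
  refine ⟨t, C, ht, δ, hδ, fun a c₀ hc₀ => ?_⟩
  obtain ⟨X₁, h1⟩ := hh a
  obtain ⟨X₂, h2⟩ := type_irr hτ hc₀
  exact ⟨max X₁ X₂, fun X hX P hP hfin => h1 X ((le_max_left _ _).trans hX) P hP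
    (h2 X ((le_max_right _ _).trans hX) _ hfin)⟩

end Pool.Agent.T6.H35.BO
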