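import Pool.Agent.T6.H35.BO.Val

/-!
# Almost prime tuples in arcs
-/

set_option autoImplicit false

namespace Pool.Agent.T6.H35.BO

open Finset Polynomial
open Pool.Agent.T6.H35.EQ
open Pool.Agent.H373R2.T7 (pz Vz nuB PerB mem_pz nuB_le Vz_low)

open Classical in
/-- the main count -/
theorem mainQ (K N k : ℕ) (hk : 1 ≤ k) (η : ℝ) (hη : 0 < η) (hη1 : η ≤ 1) : ∃ t C : ℕ, 1 ≤ t ∧
    ∃ δ : ℝ, 0 < δ ∧ ∃ X₀ : ℕ, ∀ X : ℕ, X₀ ≤ X → ∀ P : ℝ[X], P.natDegree = k →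
    Irr X η P.leadingCoeff → ∀ Q : ℕ → ℕ → Prop, PerB Q (K + 1) →
    (∀ y : ℕ, (Vz y) ^ N ≤ ∏ p ∈ pz y, (1 - (nuB Q p : ℝ) / p)) →
    ∀ c : ℝ, (X : ℝ) ^ (-δ) ≤ c → c ≤ 1 →
      c * X / Real.log X ^ C ≤ (((Icc 1 X).filter (fun h : ℕ => Int.fract (P.eval (h : ℝ)) < c ∧
        ∀ p : ℕ, p.Prime → Q p h → (X : ℝ) ^ (1 / (t : ℝ)) < p)).card : ℝ) := by
  obtain ⟨Kf, y0, hKf, hf⟩ := wfund (K + 1) (by omega) (1 / 2) (by norm_num)
  obtain ⟨τ, hτ0, hτ1, ρ, hρ0, hρ1, E, V₀, hE, hcls⟩ := cls_arc k hk η hη hη1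
  obtain ⟨C₁, N₁, hVz⟩ := Vz_low
  set t : ℕ := ⌈(Kf : ℝ) / ρ⌉₊ with ht
  have hKf0 : (0 : ℝ) < Kf := by exact_mod_cast hKf
  have ht0 : (Kf : ℝ) / ρ ≤ t := Nat.le_ceil _
  have htpos : (0 : ℝ) < t := lt_of_lt_of_le (by positivity) ht0
  have ht1 : 1 ≤ t := by exact_mod_cast htpos
  have htρ : (Kf : ℝ) / t ≤ ρ := by
    rw [div_le_iff₀ hρ0] at ht0
    rw [div_le_iff₀ htpos]
    linarith
  -- thresholds
  have hlog : ∃ X₁ : ℕ, ∀ X : ℕ, X₁ ≤ X → 4 * E * Real.log X ^ (C₁ * N) ≤ (X : ℝ) ^ (τ / 2) := by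
    have h1 := isLittleO_log_rpow_rpow_atTop (((C₁ * N : ℕ)) : ℝ) (show (0 : ℝ) < τ / 2 by positivity)
    have h2 := h1.def (show (0 : ℝ) < 1 / (4 * E) by positivity)
    have h3 := tendsto_natCast_atTop_atTop (R := ℝ) |>.eventually h2
    obtain ⟨X₁, hX₁⟩ := Filter.eventually_atTop.1 h3
    refine ⟨max X₁ 1, fun X hX => ?_⟩
    have h4 := hX₁ X ((le_max_left _ _).trans hX)
    have h5 : (1 : ℝ) ≤ X := by exact_mod_cast (le_max_right _ _).trans hX
    have h6 : 0 ≤ Real.log X := Real.log_nonneg h5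
    rw [Real.norm_of_nonneg (by positivity), Real.norm_of_nonneg (by positivity), Real.rpow_natCast] at h4
    have h7 : 4 * E * Real.log X ^ (C₁ * N) ≤ 4 * E * (1 / (4 * E) * (X : ℝ) ^ (τ / 2)) := by gcongr
    refine h7.trans (le_of_eq ?_)
    field_simp
  obtain ⟨X₁, hX₁⟩ := hlog
  obtain ⟨X₂, hX₂⟩ := exists_nat_gt (Real.exp 4)
  set Y₁ : ℕ := max (max y0 N₁) 3 + 1 with hY₁
  refine ⟨t, C₁ * N + 1, ht1, τ / 4, by positivity, max (max X₁ X₂) (max (Y₁ ^ t) V₀), ?_⟩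
  intro X hX P hP hI Q hQper hQlow c hc hc1
  have x1 : X₁ ≤ X := ((le_max_left _ _).trans (le_max_left _ _)).trans hX
  have x2 : X₂ ≤ X := ((le_max_right _ _).trans (le_max_left _ _)).trans hX
  have x3 : Y₁ ^ t ≤ X := ((le_max_left _ _).trans (le_max_right _ _)).trans hX
  have x4 : V₀ ≤ X := ((le_max_right _ _).trans (le_max_right _ _)).trans hX
  have hXe : Real.exp 4 < X := hX₂.trans_le (by exact_mod_cast x2)
  have hX1 : (1 : ℝ) ≤ X := by
    have : (1 : ℝ) ≤ Real.exp 4 := Real.one_le_exp (by norm_num)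
    linarith
  have hX1' : 1 ≤ X := by exact_mod_cast hX1
  have hX0 : (0 : ℝ) < X := by linarith
  have hL4 : 4 ≤ Real.log X := by
    rw [Real.le_log_iff_exp_le hX0]; exact hXe.le
  have hc0 : 0 ≤ c := le_trans (by positivity) hc
  set z : ℝ := (X : ℝ) ^ (1 / (t : ℝ)) with hz
  set y : ℕ := ⌊z⌋₊ with hy
  have hz0 : 0 < z := by positivity
  have hyz : (y : ℝ) ≤ z := Nat.floor_le hz0.le
  have hYz : (Y₁ : ℝ) ≤ z := by
    have h1 : ((Y₁ : ℝ) ^ t) ≤ X := by exact_mod_cast x3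
    calc (Y₁ : ℝ) = ((Y₁ : ℝ) ^ t) ^ (1 / (t : ℝ)) := by
          rw [← Real.rpow_natCast, ← Real.rpow_mul (by positivity)]
          have : (t : ℝ) * (1 / (t : ℝ)) = 1 := by field_simp
          rw [this, Real.rpow_one]
      _ ≤ _ := Real.rpow_le_rpow (by positivity) h1 (by positivity)
  have hyY : Y₁ ≤ y := Nat.le_floor hYz
  have hy0 : y0 ≤ y := by omega
  have hyN : N₁ ≤ y := by omega
  have hy3 : 3 ≤ y := by omega
  have hzX : z ≤ X := by
    calc z ≤ (X : ℝ) ^ (1 : ℝ) := by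
          apply Real.rpow_le_rpow_of_exponent_le hX1
          rw [div_le_one htpos]
          exact_mod_cast ht1
      _ = X := Real.rpow_one _
  have hyK : ((y : ℝ)) ^ Kf ≤ (X : ℝ) ^ ρ := by
    calc (y : ℝ) ^ Kf ≤ z ^ Kf := by gcongr
      _ = (X : ℝ) ^ ((Kf : ℝ) / t) := by
          rw [hz, ← Real.rpow_natCast, ← Real.rpow_mul hX0.le]
          congr 1
          ring
      _ ≤ _ := Real.rpow_le_rpow_of_exponent_le hX1 htρ
  set U := (Icc 1 X).filter (fun h : ℕ => Int.fract (P.eval (h : ℝ)) < c) with hU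
  have hlev := hf y hy0 Q hQper U (c * X) (E * (X : ℝ) ^ (1 - τ)) (by positivity)
    (by positivity) (fun q hq1 hq2 r => by
      have h1 : (q : ℝ) ≤ (X : ℝ) ^ ρ := by
        have : (q : ℝ) ≤ (y : ℝ) ^ Kf := by exact_mod_cast hq2
        exact this.trans hyK
      exact hcls X x4 hX1' P hP hI q hq1 h1 c hc0 hc1 r)
  set Pi0 : ℝ := ∏ p ∈ pz y, (1 - (nuB Q p : ℝ) / p) with hPi0
  have hlogy : 0 < Real.log y := Real.log_pos (by exact_mod_cast (by omega : 1 < y))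
  have hlogyX : Real.log y ≤ Real.log X :=
    Real.log_le_log (by exact_mod_cast (by omega : 0 < y)) (hyz.trans hzX)
  have hPi0low : 1 / Real.log X ^ (C₁ * N) ≤ Pi0 := by
    have h1 := hVz y hyN
    have h2 : (1 / Real.log y ^ C₁) ^ N ≤ Vz y ^ N := pow_le_pow_left₀ (by positivity) h1 _
    calc 1 / Real.log X ^ (C₁ * N) ≤ 1 / Real.log y ^ (C₁ * N) := by
          apply one_div_le_one_div_of_le (by positivity)
          gcongr
      _ = (1 / Real.log y ^ C₁) ^ N := by rw [div_pow, one_pow, ← pow_mul]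
      _ ≤ Vz y ^ N := h2
      _ ≤ Pi0 := hQlow y
  have herr : (y : ℝ) ^ Kf * (E * (X : ℝ) ^ (1 - τ)) ≤ c * X / Real.log X ^ (C₁ * N) / 4 := by
    have h1 : (y : ℝ) ^ Kf * (E * (X : ℝ) ^ (1 - τ)) ≤ (X : ℝ) ^ (τ / 4) * (E * (X : ℝ) ^ (1 - τ)) := by
      apply mul_le_mul_of_nonneg_right _ (by positivity)
      exact hyK.trans (Real.rpow_le_rpow_of_exponent_le hX1 hρ1)
    refine h1.trans ?_
    have h2 := hX₁ X x1
    have hLp : 0 < Real.log X ^ (C₁ * N) := by positivity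
    rw [le_div_iff₀ (by norm_num), le_div_iff₀ hLp]
    calc (X : ℝ) ^ (τ / 4) * (E * (X : ℝ) ^ (1 - τ)) * 4 * Real.log X ^ (C₁ * N) =
        (X : ℝ) ^ (τ / 4) * (X : ℝ) ^ (1 - τ) * (4 * E * Real.log X ^ (C₁ * N)) := by ring
      _ ≤ (X : ℝ) ^ (τ / 4) * (X : ℝ) ^ (1 - τ) * (X : ℝ) ^ (τ / 2) := by gcongr
      _ = (X : ℝ) ^ (-(τ / 4)) * (X : ℝ) ^ (1 : ℝ) := by
          rw [← Real.rpow_add hX0, ← Real.rpow_add hX0, ← Real.rpow_add hX0]
          ring_nf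
      _ ≤ c * X := by
          rw [Real.rpow_one]
          gcongr
  have hlow := (abs_le.1 hlev).1
  have hsub : U.filter (fun h : ℕ => ∀ p ∈ pz y, ¬ Q p h) ⊆
      (Icc 1 X).filter (fun h : ℕ => Int.fract (P.eval (h : ℝ)) < c ∧
        ∀ p : ℕ, p.Prime → Q p h → z < p) := by
    intro h hh
    rw [mem_filter, hU, mem_filter] at hh
    rw [mem_filter]
    refine ⟨hh.1.1, hh.1.2, fun p hp hq => ?_⟩
    have h1 : ¬ p ≤ y := fun h2 => hh.2 p (mem_pz.2 ⟨h2, hp⟩) hq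
    have h2 : y < p := by omega
    exact (Nat.floor_lt hz0.le).1 h2
  have hcard : ((U.filter (fun h : ℕ => ∀ p ∈ pz y, ¬ Q p h)).card : ℝ) ≤
      (((Icc 1 X).filter (fun h : ℕ => Int.fract (P.eval (h : ℝ)) < c ∧
        ∀ p : ℕ, p.Prime → Q p h → z < p)).card : ℝ) := by exact_mod_cast card_le_card hsub
  refine le_trans ?_ hcard
  have hm1 : c * X / Real.log X ^ (C₁ * N) ≤ c * X * Pi0 := by
    calc c * X / Real.log X ^ (C₁ * N) = c * X * (1 / Real.log X ^ (C₁ * N)) := by ring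
      _ ≤ _ := by gcongr
  have hm2 : c * X / Real.log X ^ (C₁ * N + 1) ≤ c * X / Real.log X ^ (C₁ * N) / 4 := by
    rw [pow_succ, ← div_div]
    apply div_le_div_of_nonneg_left (by positivity) (by norm_num) hL4
  linarith

/-- no prime divides one of the numbers for every shift -/
def Adm {K : ℕ} (h : Fin K → ℕ) : Prop := ∀ p : ℕ, p.Prime → ∃ a : ℕ, ∀ i, ¬ p ∣ a + h i

/-- the condition modulo `p` -/
def QT {K : ℕ} (M : ℕ) (h : Fin K → ℕ) (p x : ℕ) : Prop := ∃ i, p ∣ M + x + h i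

lemma QT_few {K : ℕ} (M : ℕ) (h : Fin K → ℕ) (p : ℕ) : nuB (QT M h) p ≤ K := by
  classical
  have h1 : (range p).filter (fun r => QT M h p r) ⊆
      (univ : Finset (Fin K)).biUnion (fun i => (range p).filter (fun r => p ∣ M + r + h i)) := by
    intro r hr
    rw [mem_filter] at hr
    obtain ⟨hr1, i, hd⟩ := hr
    rw [mem_biUnion]
    exact ⟨i, mem_univ _, mem_filter.2 ⟨hr1, hd⟩⟩
  have h2 : nuB (QT M h) p ≤ ∑ i : Fin K, 1 := by
    unfold nuB
    refine (card_le_card (by convert h1)).trans (card_biUnion_le.trans (sum_le_sum fun i _ => ?_))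
    rw [card_le_one]
    intro r hr r' hr'
    rw [mem_filter, mem_range] at hr hr'
    have h3 : M + r + h i ≡ M + r' + h i [MOD p] :=
      ((Nat.modEq_zero_iff_dvd.2 hr.2).trans (Nat.modEq_zero_iff_dvd.2 hr'.2).symm)
    have h4 : r ≡ r' [MOD p] := Nat.ModEq.add_left_cancel' M (Nat.ModEq.add_right_cancel' (h i) h3)
    exact Nat.ModEq.eq_of_lt_of_lt h4 hr.1 hr'.1
  simpa using h2

lemma QT_lt {K : ℕ} (M : ℕ) {h : Fin K → ℕ} (hA : Adm h) {p : ℕ} (hp : p.Prime) :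
    nuB (QT M h) p + 1 ≤ p := by
  classical
  obtain ⟨a, ha⟩ := hA p hp
  set r : ℕ := (a + (p - 1) * M) % p with hr
  have hrp : r < p := Nat.mod_lt _ hp.pos
  have hMr : M + r ≡ a [MOD p] := by
    have h1 : r ≡ a + (p - 1) * M [MOD p] := Nat.mod_modEq _ _
    have h2 : M + r ≡ M + (a + (p - 1) * M) [MOD p] := h1.add_left M
    have h3 : M + (a + (p - 1) * M) = a + p * M := by
      obtain ⟨q, hq⟩ : ∃ q, p = q + 1 := ⟨p - 1, by have := hp.pos; omega⟩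
      subst hq
      simp
      ring
    rw [h3] at h2
    refine h2.trans ?_
    have h4 : a + p * M ≡ a + 0 [MOD p] :=
      (Nat.modEq_zero_iff_dvd.2 (dvd_mul_right p M)).add_left a
    simpa using h4
  have hnot : r ∉ (range p).filter (fun x => QT M h p x) := by
    rw [mem_filter]
    rintro ⟨_, i, hd⟩
    apply ha i
    have h5 : M + r + h i ≡ a + h i [MOD p] := hMr.add_right _
    exact (h5.dvd_iff dvd_rfl).1 hd
  have h6 : (range p).filter (fun x => QT M h p x) ⊂ range p := by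
    rw [ssubset_iff_of_subset (filter_subset _ _)]
    exact ⟨r, mem_range.2 hrp, hnot⟩
  have h7 := card_lt_card h6
  rw [card_range] at h7
  unfold nuB
  exact Nat.succ_le_of_lt (by convert h7)

lemma QT_per {K : ℕ} (M : ℕ) (h : Fin K → ℕ) : PerB (QT M h) (K + 1) := by
  refine ⟨fun p n => ?_, fun p _ => (QT_few M h p).trans (by omega)⟩
  have key : ∀ i, p ∣ M + n + h i ↔ p ∣ M + n % p + h i := by
    intro i
    have h1 : M + n + h i ≡ M + n % p + h i [MOD p] :=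
      ((Nat.mod_modEq n p).symm.add_left M).add_right (h i)
    exact h1.dvd_iff dvd_rfl
  constructor
  · rintro ⟨i, hd⟩; exact ⟨i, (key i).1 hd⟩
  · rintro ⟨i, hd⟩; exact ⟨i, (key i).2 hd⟩

lemma QT_low {K : ℕ} (M : ℕ) {h : Fin K → ℕ} (hA : Adm h) (y : ℕ) :
    (Vz y) ^ (K * (K + 1)) ≤ ∏ p ∈ pz y, (1 - (nuB (QT M h) p : ℝ) / p) := by
  unfold Vz
  rw [← prod_pow]
  apply prod_le_prod
  · intro p hp
    have hp2 : (1 : ℝ) ≤ p := by exact_mod_cast (mem_pz.1 hp).2.one_lt.le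
    have : 1 / (p : ℝ) ≤ 1 := by rw [div_le_one (by linarith)]; exact hp2
    exact pow_nonneg (by linarith) _
  · intro p hp'
    have hp := (mem_pz.1 hp').2
    have hp0 : (0 : ℝ) < p := by exact_mod_cast hp.pos
    have hx0 : 0 ≤ 1 - 1 / (p : ℝ) := by
      have : 1 / (p : ℝ) ≤ 1 := by rw [div_le_one hp0]; exact_mod_cast hp.one_lt.le
      linarith
    set ν := nuB (QT M h) p with hν
    have h1 : (ν : ℝ) ≤ K := by exact_mod_cast QT_few M h p
    have h2 : (ν : ℝ) + 1 ≤ p := by exact_mod_cast QT_lt M hA hp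
    have hν0 : (0 : ℝ) ≤ ν := Nat.cast_nonneg _
    have hK0 : (0 : ℝ) ≤ K := Nat.cast_nonneg K
    set N : ℕ := K * (K + 1) with hN
    have hNr : (N : ℝ) = K * (K + 1) := by rw [hN]; push_cast; ring
    have h6 : (1 - 1 / (p : ℝ)) ^ N ≤ Real.exp (-(N / p)) := by
      calc (1 - 1 / (p : ℝ)) ^ N ≤ (Real.exp (-(1 / p))) ^ N := by
            apply pow_le_pow_left₀ hx0
            have := Real.add_one_le_exp (-(1 / (p : ℝ)))
            linarith
        _ = _ := by rw [← Real.exp_nat_mul]; ring_nf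
    have h7 : Real.exp (-(N / p)) ≤ 1 / (1 + N / p) := by
      rw [Real.exp_neg, ← one_div]
      apply one_div_le_one_div_of_le (by positivity)
      have := Real.add_one_le_exp ((N : ℝ) / p)
      linarith
    have h8 : 1 / (1 + (N : ℝ) / p) ≤ 1 - ν / p := by
      have e1 : 1 / (1 + (N : ℝ) / p) = p / (p + N) := by field_simp
      have e2 : 1 - (ν : ℝ) / p = (p - ν) / p := by field_simp
      rw [e1, e2, div_le_div_iff₀ (by positivity) hp0]
      have h9 : (ν : ℝ) * p ≤ N * (p - ν) := by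
        rw [hNr]
        by_cases hpK : (p : ℝ) ≤ K + 1
        · have h10 : (ν : ℝ) * p ≤ K * (K + 1) := mul_le_mul h1 hpK hp0.le hK0
          have h11 : (K : ℝ) * (K + 1) * 1 ≤ K * (K + 1) * (p - ν) :=
            mul_le_mul_of_nonneg_left (by linarith) (by positivity)
          linarith
        · push Not at hpK
          have h10 : (ν : ℝ) * p ≤ K * p := mul_le_mul_of_nonneg_right h1 hp0.le
          have h11 : (K : ℝ) * (K + 1) * (p - K) ≤ K * (K + 1) * (p - ν) :=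
            mul_le_mul_of_nonneg_left (by linarith) (by positivity)
          have h12 : (K : ℝ) * p ≤ K * (K + 1) * (p - K) := by
            nlinarith [mul_nonneg (mul_nonneg hK0 hK0) (sub_nonneg.2 hpK.le)]
          linarith
      nlinarith
    linarith

open Classical in
/-- the `m` in `(M, M + X]` with the fractional part of `F (m)` smaller than `c` for which all the
`m + h_i` are almost primes -/
noncomputable def Tuples {K : ℕ} (h : Fin K → ℕ) (F : ℝ[X]) (c : ℝ) (T : ℕ) (z : ℝ) (M X : ℕ) : Finset ℕ :=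
  (Ioc M (M + X)).filter (fun m : ℕ => Int.fract (F.eval (m : ℝ)) < c ∧ ∀ i, AP T z (m + h i))

/-- the lower bound for the number of tuples in all windows of length `X` below `X ^ a` -/
def ManyTuples {K : ℕ} (h : Fin K → ℕ) (a t C : ℕ) (δ : ℝ) (X : ℕ) (F : ℝ[X]) : Prop :=
  ∀ M : ℕ, M ≤ X ^ a → ∀ c : ℝ, (X : ℝ) ^ (-δ) ≤ c → c ≤ 1 →
    c * X / Real.log X ^ C ≤
      ((Tuples h F c ((a + 2) * t) ((X : ℝ) ^ (1 / (t : ℝ))) M X).card : ℝ)

theorem tup (K k : ℕ) (hk : 1 ≤ k) (η : ℝ) (hη : 0 < η) (hη1 : η ≤ 1) : ∃ t C : ℕ, 1 ≤ t ∧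
    ∃ δ : ℝ, 0 < δ ∧ ∀ (a : ℕ) (h : Fin K → ℕ), Adm h → ∃ X₀ : ℕ, ∀ X : ℕ, X₀ ≤ X → ∀ F : ℝ[X],
    F.natDegree = k → Irr X η F.leadingCoeff → ManyTuples h a t C δ X F := by
  classical
  obtain ⟨t, C', ht, δ, hδ, X₀, hX⟩ := mainQ K (K * (K + 1)) k hk η hη hη1
  refine ⟨t, C', ht, δ, hδ, fun a h hA => ⟨max X₀ (3 + ∑ i, h i), fun X hX0 F hF hI M hM c hc hc1 => ?_⟩⟩
  have hX3 : 3 + ∑ i, h i ≤ X := (le_max_right _ _).trans hX0
  have hX2 : 3 ≤ X := by omega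
  have hX2r : (3 : ℝ) ≤ X := by exact_mod_cast hX2
  have hX0r : (0 : ℝ) < X := by linarith
  have ht0 : (0 : ℝ) < t := by exact_mod_cast ht
  set P : ℝ[X] := F.comp (C (1 : ℝ) * Polynomial.X + C (M : ℝ)) with hP
  have hPd : P.natDegree = k := by rw [hP, natDegree_comp, hF, natDegree_linear one_ne_zero, mul_one]
  have hPl : P.leadingCoeff = F.leadingCoeff := by
    rw [hP, leadingCoeff_comp (by rw [natDegree_linear one_ne_zero]; norm_num),
      leadingCoeff_linear one_ne_zero, one_pow, mul_one]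
  have hmain := hX X ((le_max_left _ _).trans hX0) P hPd (by rw [hPl]; exact hI) (QT M h) (QT_per M h)
    (QT_low M hA) c hc hc1
  refine hmain.trans ?_
  rw [Nat.cast_le]
  refine card_le_card_of_injOn (fun x => M + x) ?_ (fun x _ y _ hxy => by simpa using hxy)
  intro x hx
  rw [mem_coe, mem_filter, mem_Icc] at hx
  obtain ⟨⟨hx1, hx2⟩, hx3, hx4⟩ := hx
  rw [mem_coe]
  show M + x ∈ Tuples h F c ((a + 2) * t) ((X : ℝ) ^ (1 / (t : ℝ))) M X
  unfold Tuples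
  rw [mem_filter, mem_Ioc]
  have hev : P.eval (x : ℝ) = F.eval (((M + x : ℕ)) : ℝ) := by
    rw [hP, eval_comp]
    congr 1
    simp
    ring
  refine ⟨⟨by omega, by omega⟩, by rw [← hev]; exact hx3, fun i => ?_⟩
  set z : ℝ := (X : ℝ) ^ (1 / (t : ℝ)) with hz
  have hz1 : 1 < z := Real.one_lt_rpow (by linarith) (by positivity)
  have hzT : z ^ ((a + 2) * t) = (X : ℝ) ^ (a + 2) := by
    rw [hz, ← Real.rpow_natCast, ← Real.rpow_mul hX0r.le, ← Real.rpow_natCast]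
    congr 1
    push_cast
    field_simp
  have hhi : h i ≤ ∑ i, h i := single_le_sum (f := h) (fun _ _ => Nat.zero_le _) (mem_univ i)
  refine ap_of hz1 (by omega) ?_ (fun p hp hd => hx4 p hp ⟨i, hd⟩)
  rw [hzT]
  have h6 : M + x + h i ≤ X ^ (a + 2) := by
    have h7 : 1 ≤ X ^ a := Nat.one_le_pow _ _ (by omega)
    calc M + x + h i ≤ X ^ a + X + X := by omega
      _ ≤ X ^ a * (1 + 2 * X) := by nlinarith
      _ ≤ X ^ a * X ^ 2 := Nat.mul_le_mul_left _ (by nlinarith)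
      _ = _ := by rw [← pow_add]
  exact_mod_cast h6

theorem tup_type (K k : ℕ) (hk : 1 ≤ k) (τ : ℝ) (hτ : 1 ≤ τ) : ∃ t C : ℕ, 1 ≤ t ∧ ∃ δ : ℝ, 0 < δ ∧
    ∀ (a : ℕ) (h : Fin K → ℕ), Adm h → ∀ c₀ : ℝ, 0 < c₀ → ∃ X₀ : ℕ, ∀ X : ℕ, X₀ ≤ X →
      ∀ F : ℝ[X], F.natDegree = k →
      (∀ d : ℕ, 1 ≤ d → ∀ b : ℤ, c₀ / (d : ℝ) ^ τ ≤ |d * F.leadingCoeff - b|) →
      ManyTuples h a t C δ X F := by
  obtain ⟨t, C, ht, δ, hδ, hh⟩ := tup K k hk (1 / (4 * τ)) (by positivity) (by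
    rw [div_le_one (by positivity)]; linarith)
  refine ⟨t, C, ht, δ, hδ, fun a h hA c₀ hc₀ => ?_⟩
  obtain ⟨X₁, h1⟩ := hh a h hA
  obtain ⟨X₂, h2⟩ := type_irr hτ hc₀
  exact ⟨max X₁ X₂, fun X hX P hP hfin => h1 X ((le_max_left _ _).trans hX) P hP
    (h2 X ((le_max_right _ _).trans hX) _ hfin)⟩

theorem tup_irr (K k : ℕ) (hk : 1 ≤ k) : ∃ t C : ℕ, 1 ≤ t ∧ ∃ δ : ℝ, 0 < δ ∧
    ∀ (a : ℕ) (h : Fin K → ℕ), Adm h → ∀ α : ℝ, Irrational α → ∀ B : ℕ, ∃ X : ℕ, B ≤ X ∧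
      ∀ F : ℝ[X], F.natDegree = k → F.leadingCoeff = α → ManyTuples h a t C δ X F := by
  obtain ⟨t, C, ht, δ, hδ, hh⟩ := tup K k hk (1 / 4) (by norm_num) (by norm_num)
  refine ⟨t, C, ht, δ, hδ, fun a h hA α hα B => ?_⟩
  obtain ⟨X₁, h1⟩ := hh a h hA
  obtain ⟨V, hV, _, hI⟩ := Pool.Agent.T6.H35.CQ.irr_scale hα (max B X₁)
  exact ⟨V, (le_max_left _ _).trans hV, fun P hP hPα => h1 V ((le_max_right _ _).trans hV) P hP
    (by rw [hPα]; exact hI)⟩

lemma adm_twin : Adm ![0, 2] := by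
  intro p hp
  by_cases h3 : p = 3
  · subst h3
    refine ⟨2, fun i => ?_⟩
    fin_cases i <;> decide
  · refine ⟨1, fun i => ?_⟩
    fin_cases i
    · intro h
      exact hp.one_lt.ne' (Nat.dvd_one.1 (by simpa using h))
    · intro h
      have h' : p ∣ 3 := by simpa using h
      exact h3 ((Nat.prime_dvd_prime_iff_eq hp Nat.prime_three).1 h')

end Pool.Agent.T6.H35.BO
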