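import Pool.Agent.T6.H35.BO.Final

/-!
# Polynomials at the almost primes themselves
-/

set_option autoImplicit false

namespace Pool.Agent.T6.H35.BO

open Finset Polynomial
open Pool.Agent.T6.H35.EQ

lemma slope_le (K n : ℕ) : slope K n ≤ slope K 1 := by
  unfold slope
  apply Nat.le_of_dvd
  · apply Nat.pos_of_ne_zero
    rw [prod_ne_zero_iff]
    intro p hp
    rw [mem_filter] at hp
    exact hp.2.1.ne_zero
  · apply prod_dvd_prod_of_subset
    intro p hp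
    rw [mem_filter] at hp ⊢
    exact ⟨hp.1, hp.2.1, by
      intro h1
      exact hp.2.1.one_lt.ne' (Nat.dvd_one.1 h1)⟩

/-- the polynomial `F (n ^ 2 + slope (n) h)` of `h` -/
noncomputable def sub (K n : ℕ) (F : ℝ[X]) : ℝ[X] :=
  F.comp (C (slope K n : ℝ) * X + C ((n : ℝ) ^ 2))

theorem off_val (K k : ℕ) (hk : 1 ≤ k) (τ : ℝ) (hτ : 1 ≤ τ) : ∃ t C : ℕ, 1 ≤ t ∧ ∃ δ : ℝ, 0 < δ ∧
    ∀ (a : ℕ) (c₀ : ℝ), 0 < c₀ → ∃ X₀ : ℕ, ∀ X : ℕ, X₀ ≤ X → ∀ F : ℝ[X], F.natDegree = k →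
      (∀ d : ℕ, 1 ≤ d → ∀ b : ℤ, c₀ / (d : ℝ) ^ τ ≤ |d * F.leadingCoeff - b|) →
      ManyOffsets K a t C δ X F ∧ ∀ m : ℕ, ManyOffsets K a t C δ X (sub K m F) := by
  obtain ⟨t, C', ht, δ, hδ, h⟩ := off_type K k hk τ hτ
  refine ⟨t, C', ht, δ, hδ, fun a c₀ hc₀ => ?_⟩
  set S : ℕ := slope K 1 with hS
  have hS1 : 1 ≤ S := slope_pos K 1
  have hS0 : (0 : ℝ) < S := by exact_mod_cast hS1
  obtain ⟨X₁, h1⟩ := h a (c₀ / ((S : ℝ) ^ k) ^ τ) (by positivity)
  obtain ⟨X₂, h2⟩ := h a c₀ hc₀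
  refine ⟨max X₁ X₂, fun X hX F hF hfin => ⟨h2 X ((le_max_right _ _).trans hX) F hF hfin, fun m => ?_⟩⟩
  have hs1 : 1 ≤ slope K m := slope_pos K m
  have hs0 : (0 : ℝ) < slope K m := by exact_mod_cast hs1
  have hsS : (slope K m : ℝ) ≤ S := by exact_mod_cast slope_le K m
  have hlead : (sub K m F).leadingCoeff = F.leadingCoeff * (slope K m : ℝ) ^ k := by
    unfold sub
    rw [leadingCoeff_comp (by rw [natDegree_linear hs0.ne']; norm_num), leadingCoeff_linear hs0.ne', hF]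
  refine h1 X ((le_max_left _ _).trans hX) (sub K m F) ?_ (fun d hd b => ?_)
  · unfold sub
    rw [natDegree_comp, hF, natDegree_linear hs0.ne', mul_one]
  · rw [hlead]
    have h3 := hfin (d * slope K m ^ k) (Nat.one_le_iff_ne_zero.2 (by positivity)) b
    push_cast at h3
    have e : (d : ℝ) * (F.leadingCoeff * (slope K m : ℝ) ^ k) - b =
        d * (slope K m : ℝ) ^ k * F.leadingCoeff - b := by ring
    rw [e]
    refine le_trans ?_ h3
    have hd0 : (0 : ℝ) < d := by exact_mod_cast hd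
    rw [div_div, Real.mul_rpow hd0.le (by positivity)]
    apply div_le_div_of_nonneg_left hc₀.le (by positivity)
    rw [mul_comm]
    apply mul_le_mul_of_nonneg_right _ (by positivity)
    exact Real.rpow_le_rpow (by positivity) (pow_le_pow_left₀ hs0.le hsS k) (by linarith)

end Pool.Agent.T6.H35.BO
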